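import Mathlib

set_option autoImplicit false

namespace Pool.K4

/-- repeated squaring modulo E -/
def sqm (E : ℕ) : ℕ → ℕ → ℕ
  | 0, x => x
  | n + 1, x => sqm E n (x * x % E)

lemma sqm_spec (E n x : ℕ) : sqm E n x ≡ x ^ (2 ^ n) [MOD E] := by
  induction n generalizing x with
  | zero => simp [sqm, Nat.ModEq.refl]
  | succ n ih =>
    have h1 : sqm E (n + 1) x = sqm E n (x * x % E) := rfl
    rw [h1]
    refine (ih _).trans ?_
    have h2 : x ^ (2 ^ (n + 1)) = (x * x) ^ (2 ^ n) := by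
      rw [pow_succ, mul_comm, pow_mul]
      ring_nf
    rw [h2]
    exact (Nat.mod_modEq _ _).pow _

/-- the number that carries all the primes of small 2-adic order -/
def G (m j : ℕ) : ℕ :=
  Nat.gcd (2 ^ (2 ^ j * m) - 1)
    (sqm (2 ^ (2 ^ j * m) - 1) (j + 2) (m ^ m % (2 ^ (2 ^ j * m) - 1)) - 1)

lemma dvd_G {m j n : ℕ} (h1 : n ∣ 2 ^ (2 ^ j * m) - 1) (h2 : m ^ (2 ^ (j + 2) * m) ≡ 1 [MOD n]) :
    n ∣ G m j := by
  refine Nat.dvd_gcd h1 ?_
  set E := 2 ^ (2 ^ j * m) - 1 with hE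
  have h3 : sqm E (j + 2) (m ^ m % E) ≡ 1 [MOD n] := by
    have h4 : sqm E (j + 2) (m ^ m % E) ≡ (m ^ m % E) ^ (2 ^ (j + 2)) [MOD n] :=
      (sqm_spec _ _ _).of_dvd h1
    have h5 : (m ^ m % E) ≡ m ^ m [MOD n] := (Nat.mod_modEq _ _).of_dvd h1
    refine h4.trans ((h5.pow _).trans ?_)
    rw [← pow_mul]
    rwa [mul_comm m]
  rcases Nat.eq_zero_or_pos (sqm E (j + 2) (m ^ m % E)) with h6 | h6
  · rw [h6]; simp
  · exact (Nat.modEq_iff_dvd' h6).1 h3.symm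

lemma G_dvd (m j : ℕ) : G m j ∣ 2 ^ (2 ^ j * m) - 1 := Nat.gcd_dvd_left _ _

/-- a number all of whose prime factors are 1 modulo M is 1 modulo M -/
lemma modEq_one_of_primes {M : ℕ} (n : ℕ) (hn : n ≠ 0)
    (h : ∀ q : ℕ, q.Prime → q ∣ n → q ≡ 1 [MOD M]) : n ≡ 1 [MOD M] := by
  induction n using Nat.recOnMul with
  | zero => exact absurd rfl hn
  | one => rfl
  | prime p hp => exact h p hp dvd_rfl
  | mul a b iha ihb =>
    have ha : a ≠ 0 := fun h0 => hn (by rw [h0, zero_mul])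
    have hb : b ≠ 0 := fun h0 => hn (by rw [h0, mul_zero])
    have h1 := iha ha fun q hq hqa => h q hq (hqa.mul_right b)
    have h2 := ihb hb fun q hq hqb => h q hq (hqb.mul_left a)
    simpa using h1.mul h2

/-- a prime q for which the order of 2 has 2-adic valuation above j is 1 modulo 2 ^ (j + 2) -/
lemma prime_mod {q a j m : ℕ} (hq : q.Prime) (hm : Odd m) (hj : 2 ≤ j)
    (h1 : q ∣ 2 ^ (2 ^ a * m) - 1) (h2 : ¬ q ∣ 2 ^ (2 ^ j * m) - 1) :
    q ≡ 1 [MOD 2 ^ (j + 2)] := by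
  have : Fact q.Prime := ⟨hq⟩
  have key : ∀ n : ℕ, q ∣ 2 ^ n - 1 ↔ ((2 : ZMod q) ^ n = 1) := by
    intro n
    rw [← ZMod.natCast_eq_zero_iff, Nat.cast_sub Nat.one_le_two_pow, sub_eq_zero]
    push_cast
    rfl
  rw [key] at h1 h2
  have h20 : (2 : ZMod q) ≠ 0 := by
    intro h0
    rw [h0] at h1
    have h3 : 2 ^ a * m ≠ 0 := mul_ne_zero (by positivity) (by rintro rfl; simp at hm)
    rw [zero_pow h3] at h1
    exact zero_ne_one h1
  have hq2 : q ≠ 2 := by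
    intro hq2
    apply h20
    have h5 : ((2 : ℕ) : ZMod q) = 0 := by rw [← hq2]; exact ZMod.natCast_self q
    exact_mod_cast h5
  set d := orderOf (2 : ZMod q) with hd
  have hd1 : d ∣ 2 ^ a * m := orderOf_dvd_of_pow_eq_one h1
  have hd2 : ¬ d ∣ 2 ^ j * m := fun h => h2 (orderOf_dvd_iff_pow_eq_one.1 h)
  have hd0 : d ≠ 0 := by
    intro h0
    rw [h0, zero_dvd_iff] at hd1
    exact (mul_ne_zero (by positivity) (by rintro rfl; simp at hm)) hd1
  obtain ⟨i, d', hd', hdi⟩ := Nat.exists_eq_two_pow_mul_odd hd0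
  have h3 : d' ∣ m := by
    have h4 : d' ∣ 2 ^ a * m := (Dvd.intro_left (2 ^ i) hdi.symm).trans hd1
    refine Nat.Coprime.dvd_of_dvd_mul_left ?_ h4
    exact (Nat.Coprime.pow_right a (Nat.coprime_two_right.2 hd'))
  have h4 : j + 1 ≤ i := by
    by_contra hlt
    apply hd2
    rw [hdi]
    exact Nat.mul_dvd_mul (pow_dvd_pow 2 (by omega)) h3
  have h5 : 2 ^ (j + 1) ∣ d := by
    rw [hdi]
    exact (pow_dvd_pow 2 h4).mul_right _
  have h6 : d ∣ q - 1 := ZMod.orderOf_dvd_card_sub_one h20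
  have h8 : 8 ∣ q - 1 := by
    have : (8:ℕ) ∣ 2 ^ (j + 1) := by
      have : (8:ℕ) = 2 ^ 3 := by norm_num
      rw [this]
      exact pow_dvd_pow 2 (by omega)
    exact this.trans (h5.trans h6)
  have hq1 : 1 ≤ q := hq.one_lt.le
  have h9 : q % 8 = 1 := by omega
  have h10 : IsSquare (2 : ZMod q) := (ZMod.exists_sq_eq_two_iff hq2).2 (Or.inl h9)
  obtain ⟨y, hy⟩ := h10
  have hy0 : y ≠ 0 := by
    rintro rfl
    exact h20 (by rw [hy]; simp)
  have h11 : (2 : ZMod q) ^ ((q - 1) / 2) = 1 := by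
    rw [hy, ← sq, ← pow_mul, Nat.mul_div_cancel' (by omega)]
    exact ZMod.pow_card_sub_one_eq_one hy0
  have h12 : d ∣ (q - 1) / 2 := orderOf_dvd_of_pow_eq_one h11
  have h13 : 2 ^ (j + 2) ∣ q - 1 := by
    have h14 : 2 ^ (j + 1) ∣ (q - 1) / 2 := h5.trans h12
    have h15 : 2 ^ (j + 2) = 2 * 2 ^ (j + 1) := by ring
    rw [h15]
    have h16 : q - 1 = 2 * ((q - 1) / 2) := by omega
    rw [h16]
    exact Nat.mul_dvd_mul_left 2 h14
  exact ((Nat.modEq_iff_dvd' hq1).2 h13).symm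

/-- the part of N made of the primes for which the order of 2 has small 2-adic valuation -/
lemma part {N a j m : ℕ} (hm : Odd m) (hj : 2 ≤ j) (hja : j ≤ a) (hN : N ∣ 2 ^ (2 ^ a * m) - 1) :
    N ≡ Nat.gcd N (2 ^ (2 ^ j * m) - 1) [MOD 2 ^ (j + 2)] := by
  have hm0 : m ≠ 0 := by rintro rfl; simp at hm
  set x := 2 ^ (2 ^ j * m) with hx
  set s := 2 ^ (a - j) with hs
  have hx1 : 1 ≤ x := Nat.one_le_two_pow
  have hxs : 2 ^ (2 ^ a * m) = x ^ s := by
    rw [hx, ← pow_mul, hs]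
    congr 1
    have : 2 ^ a = 2 ^ j * 2 ^ (a - j) := by rw [← pow_add]; congr 1; omega
    rw [this]; ring
  set C := ∑ i ∈ Finset.range s, x ^ i with hC
  have hEC : 2 ^ (2 ^ a * m) - 1 = (x - 1) * C := by
    rw [hxs]
    have h1 : ((x : ℤ) - 1) * ∑ i ∈ Finset.range s, (x : ℤ) ^ i = (x : ℤ) ^ s - 1 :=
      mul_geom_sum _ _
    have h2 : ((x ^ s - 1 : ℕ) : ℤ) = ((x - 1) * C : ℕ) := by
      rw [Nat.cast_sub (Nat.one_le_pow _ _ hx1), Nat.cast_mul, Nat.cast_sub hx1, hC]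
      push_cast
      linarith
    exact_mod_cast h2
  have hodd : Odd (x - 1) := by
    have h1 : 2 ^ j * m ≠ 0 := mul_ne_zero (by positivity) hm0
    have h2 : Even x := by
      rw [hx]
      exact (Nat.even_pow.2 ⟨even_two, h1⟩)
    exact Nat.Even.sub_odd hx1 h2 odd_one
  have hCx : C ≡ s [MOD (x - 1)] := by
    have h1 : x ≡ 1 [MOD (x - 1)] := by
      exact ((Nat.modEq_iff_dvd' hx1).2 dvd_rfl).symm
    have h2 : C ≡ ∑ i ∈ Finset.range s, 1 ^ i [MOD (x - 1)] := by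
      rw [hC]
      exact Nat.ModEq.sum fun i _ => h1.pow i
    simpa using h2
  have hcop : Nat.Coprime (x - 1) C := by
    have h1 : Nat.gcd (x - 1) C = Nat.gcd (x - 1) s := by
      rw [Nat.gcd_comm, Nat.gcd_comm (x - 1) s]
      exact hCx.gcd_eq
    rw [Nat.Coprime, h1, hs]
    exact Nat.Coprime.pow_right _ (Nat.coprime_two_right.2 hodd)
  have hNC : N = Nat.gcd N (x - 1) * Nat.gcd N C := by
    rw [← hcop.gcd_mul N, ← hEC]
    exact (Nat.gcd_eq_left hN).symm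
  have hC0 : Nat.gcd N C ≠ 0 := by
    intro h0
    rw [Nat.gcd_eq_zero_iff] at h0
    have h1 : 1 ≤ C := by
      rw [hC]
      have h2 : x ^ 0 ≤ ∑ i ∈ Finset.range s, x ^ i :=
        Finset.single_le_sum (f := fun i => x ^ i) (fun _ _ => Nat.zero_le _)
          (Finset.mem_range.2 (by rw [hs]; positivity))
      simpa using h2
    omega
  have h1 : Nat.gcd N C ≡ 1 [MOD 2 ^ (j + 2)] := by
    refine modEq_one_of_primes _ hC0 fun q hq hqC => ?_
    have hqC' : q ∣ C := hqC.trans (Nat.gcd_dvd_right _ _)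
    refine prime_mod hq hm hj (a := a) ?_ ?_
    · rw [hEC]; exact hqC'.mul_left _
    · intro h2
      exact hq.one_lt.ne' (Nat.eq_one_of_dvd_coprimes hcop h2 hqC')
  calc N = Nat.gcd N (x - 1) * Nat.gcd N C := hNC
    _ ≡ Nat.gcd N (x - 1) * 1 [MOD 2 ^ (j + 2)] := h1.mul_left _
    _ = Nat.gcd N (x - 1) := mul_one _

/-- the same with the small number G -/
lemma partG {N a j m : ℕ} (hm : Odd m) (hj : 2 ≤ j) (hja : j ≤ a)
    (hN : N ∣ (2 ^ a * m) ^ 4 - 1) (h : (2 ^ a * m) ^ 4 - 1 ∣ 2 ^ (2 ^ a * m) - 1) :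
    N ≡ Nat.gcd N (G m j) [MOD 2 ^ (j + 2)] := by
  have hm0 : 0 < m := by rcases Nat.eq_zero_or_pos m with h0 | h0; · rw [h0] at hm; simp at hm
                         · exact h0
  have h1 := part hm hj hja (hN.trans h)
  have h2 : Nat.gcd N (2 ^ (2 ^ j * m) - 1) = Nat.gcd N (G m j) := by
    refine Nat.dvd_antisymm ?_ ?_
    · set n := Nat.gcd N (2 ^ (2 ^ j * m) - 1) with hn
      have hnN : n ∣ N := Nat.gcd_dvd_left _ _
      have hnE : n ∣ 2 ^ (2 ^ j * m) - 1 := Nat.gcd_dvd_right _ _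
      refine Nat.dvd_gcd hnN (dvd_G hnE ?_)
      have hk : (2 ^ a * m) ^ 4 ≡ 1 [MOD n] :=
        ((Nat.modEq_iff_dvd' (Nat.one_le_pow _ _ (by positivity))).2 (hnN.trans hN)).symm
      have hE : 2 ^ (2 ^ j * m) ≡ 1 [MOD n] :=
        ((Nat.modEq_iff_dvd' Nat.one_le_two_pow).2 hnE).symm
      have h3 := hk.pow (2 ^ j * m)
      rw [one_pow] at h3
      have h4 : ((2 ^ a * m) ^ 4) ^ (2 ^ j * m) =
          (2 ^ (2 ^ j * m)) ^ (4 * a) * m ^ (2 ^ (j + 2) * m) := by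
        rw [← pow_mul, mul_pow, ← pow_mul, ← pow_mul]
        congr 1
        · congr 1; ring
        · congr 1; ring
      rw [h4] at h3
      have h5 : (2 ^ (2 ^ j * m)) ^ (4 * a) * m ^ (2 ^ (j + 2) * m) ≡
          1 ^ (4 * a) * m ^ (2 ^ (j + 2) * m) [MOD n] := (hE.pow _).mul_right _
      rw [one_pow, one_mul] at h5
      exact h5.symm.trans h3
    · exact Nat.gcd_dvd_gcd_of_dvd_right N (G_dvd m j)
  rw [h2] at h1
  exact h1

end Pool.K4
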