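import Pool.Agent.K4.A

set_option autoImplicit false

namespace Pool.K4

/-- true if the residue x of k modulo g violates one of the three congruences -/
def chk (g T x : ℕ) : Bool :=
  !(Nat.beq (Nat.gcd (x + g - 1) g % T) (T - 1) &&
    (Nat.beq (Nat.gcd (x + 1) g % T) 1 && Nat.beq (Nat.gcd (x * x + 1) g % T) 1))

/-- check all exponents in a dyadic block, ignoring those which are at least D -/
def rng (g T m D : ℕ) : ℕ → ℕ → Bool
  | 0, s => Nat.ble D s || chk g T (2 ^ s * m % g)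
  | l + 1, s => rng g T m D l (2 * s) && rng g T m D l (2 * s + 1)

/-- direct check for k = 2 ^ a * m -/
def small (m a : ℕ) : Bool :=
  !(Nat.beq (sqm ((2 ^ a * m) ^ 4 - 1) a (2 ^ m % ((2 ^ a * m) ^ 4 - 1)) % ((2 ^ a * m) ^ 4 - 1)) 1)

/-- direct checks for all exponents below n -/
def smalls (m : ℕ) : ℕ → Bool
  | 0 => true
  | n + 1 => small m n && smalls m n

/-- the certificate for the odd part m: level j, T = 2 ^ (j + 2), D a period of 2 modulo g, l with
D at most 2 ^ l, and g = G m j -/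
def cert (m j T D l g : ℕ) : Bool :=
  Nat.ble 2 j && (Nat.beq T (2 ^ (j + 2)) && (Nat.ble 1 D && (Nat.ble D (2 ^ l) &&
    (Nat.ble 1 g && (Nat.beq (G m j) g && (Nat.beq (2 ^ D % g) (1 % g) &&
      (smalls m (j + 2) && rng g T m D l 0)))))))

lemma rng_spec {g T m D : ℕ} (l : ℕ) : ∀ s : ℕ, rng g T m D l s = true → ∀ i < 2 ^ l,
    D ≤ 2 ^ l * s + i ∨ chk g T (2 ^ (2 ^ l * s + i) * m % g) = true := by
  induction l with
  | zero =>
    intro s h i hi
    have hi0 : i = 0 := by simpa using hi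
    subst hi0
    simp only [rng, Bool.or_eq_true] at h
    simp only [pow_zero, one_mul, add_zero]
    rcases h with h | h
    · left; exact Nat.le_of_ble_eq_true h
    · right; exact h
  | succ l ih =>
    intro s h i hi
    simp only [rng, Bool.and_eq_true] at h
    rcases lt_or_ge i (2 ^ l) with h1 | h1
    · have h2 := ih _ h.1 i h1
      have h3 : 2 ^ l * (2 * s) + i = 2 ^ (l + 1) * s + i := by ring
      rwa [h3] at h2
    · have h2 := ih _ h.2 (i - 2 ^ l) (by rw [pow_succ] at hi; omega)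
      have h3 : 2 ^ l * (2 * s + 1) + (i - 2 ^ l) = 2 ^ (l + 1) * s + i := by
        have h4 : 2 ^ l * (2 * s + 1) = 2 ^ (l + 1) * s + 2 ^ l := by ring
        rw [h4]; omega
      rwa [h3] at h2

lemma smalls_spec {m : ℕ} (n : ℕ) (h : smalls m n = true) : ∀ a < n, small m a = true := by
  induction n with
  | zero => intro a ha; omega
  | succ n ih =>
    intro a ha
    simp only [smalls, Bool.and_eq_true] at h
    rcases Nat.lt_succ_iff_lt_or_eq.1 ha with h1 | h1
    · exact ih h.2 a h1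
    · rw [h1]; exact h.1

lemma small_spec {m a : ℕ} (hm : 3 ≤ m) (h : small m a = true) :
    ¬ (2 ^ a * m) ^ 4 - 1 ∣ 2 ^ (2 ^ a * m) - 1 := by
  intro hd
  have hk : 3 ≤ 2 ^ a * m := le_trans hm (Nat.le_mul_of_pos_left _ (by positivity))
  have hk4 : 81 ≤ (2 ^ a * m) ^ 4 := by
    calc 81 = 3 ^ 4 := by norm_num
      _ ≤ _ := Nat.pow_le_pow_left hk 4
  unfold small at h
  set N := (2 ^ a * m) ^ 4 - 1 with hN
  have h1 : sqm N a (2 ^ m % N) ≡ 1 [MOD N] := by
    refine (sqm_spec _ _ _).trans ?_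
    refine ((Nat.mod_modEq _ _).pow _).trans ?_
    rw [← pow_mul, mul_comm m]
    exact ((Nat.modEq_iff_dvd' Nat.one_le_two_pow).2 hd).symm
  have h2 : sqm N a (2 ^ m % N) % N = 1 := by
    have h3 : 1 % N = 1 := Nat.mod_eq_of_lt (by omega)
    rw [← h3]; exact h1
  rw [h2] at h
  exact absurd h (by decide)

theorem cert_spec {m j T D l g : ℕ} (hm : Odd m) (hm3 : 3 ≤ m) (h : cert m j T D l g = true) (a : ℕ) :
    ¬ (2 ^ a * m) ^ 4 - 1 ∣ 2 ^ (2 ^ a * m) - 1 := by
  unfold cert at h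
  simp only [Bool.and_eq_true] at h
  obtain ⟨hj, hT, hD, hDl, hg, hG, hper, hsm, hrng⟩ := h
  have hj := Nat.le_of_ble_eq_true hj
  have hT := Nat.eq_of_beq_eq_true hT
  have hD := Nat.le_of_ble_eq_true hD
  have hDl := Nat.le_of_ble_eq_true hDl
  have hg := Nat.le_of_ble_eq_true hg
  have hG := Nat.eq_of_beq_eq_true hG
  have hper := Nat.eq_of_beq_eq_true hper
  rcases lt_or_ge a (j + 2) with ha | ha
  · exact small_spec hm3 (smalls_spec _ hsm a ha)
  intro hd
  have hper' : 2 ^ D ≡ 1 [MOD g] := hper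
  set k := 2 ^ a * m with hk
  have hk1 : 3 ≤ k := le_trans hm3 (Nat.le_mul_of_pos_left _ (by positivity))
  have hr : a % D < D := Nat.mod_lt _ hD
  have hc := rng_spec l 0 hrng (a % D) (lt_of_lt_of_le hr hDl)
  rw [mul_zero, zero_add] at hc
  have hc : chk g T (2 ^ (a % D) * m % g) = true := by
    rcases hc with hc | hc
    · omega
    · exact hc
  set y := 2 ^ (a % D) * m % g with hy
  have hyk : y ≡ k [MOD g] := by
    refine (Nat.mod_modEq _ _).trans ?_
    rw [hk]
    refine Nat.ModEq.mul_right _ ?_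
    have h1 : a = a % D + D * (a / D) := (Nat.mod_add_div a D).symm
    have h2 : 2 ^ a = 2 ^ (a % D) * (2 ^ D) ^ (a / D) := by
      rw [← pow_mul, ← pow_add, ← h1]
    rw [h2]
    have h3 := (hper'.pow (a / D)).mul_left (2 ^ (a % D))
    rw [one_pow, mul_one] at h3
    exact h3.symm
  have h2T : ∀ N : ℕ, N ∣ k ^ 4 - 1 → N ≡ Nat.gcd N g [MOD T] := by
    intro N hN
    have := partG hm hj (by omega) hN hd
    rwa [hG, ← hT] at this
  have hkT : k ≡ 0 [MOD T] := by
    rw [Nat.modEq_zero_iff_dvd, hT, hk]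
    exact (pow_dvd_pow 2 ha).mul_right _
  have hT16 : 16 ≤ T := by
    rw [hT]
    calc 16 = 2 ^ 4 := by norm_num
      _ ≤ _ := Nat.pow_le_pow_right (by norm_num) (by omega)
  -- the three divisors
  have hd1 : k - 1 ∣ k ^ 4 - 1 := by
    have := Nat.sub_dvd_pow_sub_pow k 1 4
    simpa using this
  have hsq : k ^ 4 - 1 = (k ^ 2 - 1) * (k ^ 2 + 1) := by
    have h2 : k ^ 4 = (k ^ 2) ^ 2 := by ring
    have := Nat.sq_sub_sq (k ^ 2) 1
    rw [one_pow] at this
    rw [h2, this, mul_comm]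
  have hd3 : k * k + 1 ∣ k ^ 4 - 1 := by
    rw [hsq, ← sq k]
    exact Dvd.intro_left _ rfl
  have hd2 : k + 1 ∣ k ^ 4 - 1 := by
    rw [hsq]
    refine Dvd.dvd.mul_right ?_ _
    have := Nat.sq_sub_sq k 1
    rw [one_pow] at this
    rw [this]
    exact Dvd.intro _ rfl
  have g1 : Nat.gcd (y + g - 1) g % T = T - 1 := by
    have h1 : y + g - 1 ≡ k - 1 [MOD g] := by
      have h2 : (y + g - 1) + 1 ≡ (k - 1) + 1 [MOD g] := by
        have e1 : (y + g - 1) + 1 = y + g := by omega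
        have e2 : (k - 1) + 1 = k := by omega
        rw [e1, e2]
        have h3 : y + g ≡ k + 0 [MOD g] := hyk.add (by simp [Nat.ModEq])
        simpa using h3
      exact Nat.ModEq.add_right_cancel' 1 h2
    rw [h1.gcd_eq]
    have h4 := h2T _ hd1
    have h5 : k - 1 ≡ T - 1 [MOD T] := by
      have h6 : (k - 1) + 1 ≡ (T - 1) + 1 [MOD T] := by
        have e1 : (k - 1) + 1 = k := by omega
        have e2 : (T - 1) + 1 = T := by omega
        rw [e1, e2]
        exact hkT.trans (by simp [Nat.ModEq])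
      exact Nat.ModEq.add_right_cancel' 1 h6
    have h7 : Nat.gcd (k - 1) g ≡ T - 1 [MOD T] := h4.symm.trans h5
    have h8 : (T - 1) % T = T - 1 := Nat.mod_eq_of_lt (by omega)
    rw [← h8]; exact h7
  have g2 : Nat.gcd (y + 1) g % T = 1 := by
    rw [(hyk.add_right 1).gcd_eq]
    have h5 : k + 1 ≡ 1 [MOD T] := by simpa using hkT.add_right 1
    have h7 : Nat.gcd (k + 1) g % T = 1 % T := (h2T _ hd2).symm.trans h5
    rw [h7]; exact Nat.mod_eq_of_lt (by omega)
  have g3 : Nat.gcd (y * y + 1) g % T = 1 := by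
    rw [((hyk.mul hyk).add_right 1).gcd_eq]
    have h5 : k * k + 1 ≡ 1 [MOD T] := by simpa using (hkT.mul hkT).add_right 1
    have h7 : Nat.gcd (k * k + 1) g % T = 1 % T := (h2T _ hd3).symm.trans h5
    rw [h7]; exact Nat.mod_eq_of_lt (by omega)
  unfold chk at hc
  rw [g1, g2, g3] at hc
  simp at hc

end Pool.K4
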