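import Pool.Agent.K4.B

set_option autoImplicit false

namespace Pool.K4

lemma c3 : cert 3 2 16 12 4 455 = true := by decide +kernel

lemma c5 : cert 5 2 16 20 5 1353 = true := by decide +kernel

lemma c7 : cert 7 2 16 28 5 49155 = true := by decide +kernel

lemma c9 : cert 9 2 16 36 6 23350145 = true := by decide +kernel

lemma c11 : cert 11 2 16 44 6 30705 = true := by decide +kernel

lemma c13 : cert 13 2 16 52 6 795 = true := by decide +kernel

lemma c15 : cert 15 2 16 60 6 77608531 = true := by decide +kernel

lemma c17 : cert 17 3 32 68 7 2055 = true := by decide +kernel

lemma c19 : cert 19 3 32 152 8 310335 = true := by decide +kernel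

lemma c21 : cert 21 2 16 84 7 3086655455 = true := by decide +kernel

lemma c23 : cert 23 3 32 184 8 12140805 = true := by decide +kernel

lemma c25 : cert 25 2 16 100 7 34299903 = true := by decide +kernel

lemma c27 : cert 27 2 16 36 6 2545165805 = true := by decide +kernel

lemma c29 : cert 29 2 16 116 7 206205 = true := by decide +kernel

lemma c31 : cert 31 3 32 8 3 255 = true := by decide +kernel

lemma c33 : cert 33 2 16 132 8 131857105835 = true := by decide +kernel

lemma c35 : cert 35 2 16 140 8 117915000186423 = true := by decide +kernel

lemma c37 : cert 37 2 16 148 8 1325355 = true := by decide +kernel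

lemma c39 : cert 39 2 16 156 8 28071860836262005 = true := by decide +kernel

lemma c41 : cert 41 2 16 164 8 1245 = true := by decide +kernel

lemma c43 : cert 43 2 16 172 8 2595 = true := by decide +kernel

lemma c45 : cert 45 2 16 180 8 78576507360932581 = true := by decide +kernel

lemma c47 : cert 47 3 32 376 9 1150815 = true := by decide +kernel

lemma c49 : cert 49 3 32 392 9 164620095 = true := by decide +kernel

lemma c51 : cert 51 2 16 204 8 15037920377120563195 = true := by decide +kernel

lemma c53 : cert 53 3 32 424 9 27285 = true := by decide +kernel

lemma c55 : cert 55 2 16 220 8 221819061 = true := by decide +kernel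

lemma c57 : cert 57 5 128 1824 11 3189920132075498129035 = true := by decide +kernel

lemma c59 : cert 59 2 16 4 2 15 = true := by decide +kernel

lemma c61 : cert 61 5 128 976 10 64027695 = true := by decide +kernel

lemma c63 : cert 63 2 16 252 8 2192787558938692235 = true := by decide +kernel

lemma c65 : cert 65 2 16 260 9 768391120563 = true := by decide +kernel

lemma c67 : cert 67 2 16 268 9 4035 = true := by decide +kernel

lemma c69 : cert 69 2 16 276 9 823386655 = true := by decide +kernel

lemma c71 : cert 71 2 16 284 9 8535 = true := by decide +kernel

lemma c73 : cert 73 2 16 292 9 1929405 = true := by decide +kernel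

lemma c75 : cert 75 2 16 300 9 282782973806440918811 = true := by decide +kernel

lemma c77 : cert 77 3 32 616 10 372558377785845 = true := by decide +kernel

lemma c79 : cert 79 3 32 632 10 80835 = true := by decide +kernel

lemma c81 : cert 81 3 32 648 10 39941184285315729386996935 = true := by decide +kernel

lemma c83 : cert 83 3 32 664 10 56291641082535 = true := by decide +kernel

lemma c85 : cert 85 2 16 340 9 5866861011 = true := by decide +kernel

lemma c87 : cert 87 2 16 348 9 9118202471105 = true := by decide +kernel

lemma c89 : cert 89 2 16 356 9 2685 = true := by decide +kernel

lemma c91 : cert 91 3 32 728 10 229112697097695 = true := by decide +kernel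

lemma c93 : cert 93 2 16 372 9 1473295915 = true := by decide +kernel

lemma c95 : cert 95 2 16 380 9 6096456993 = true := by decide +kernel

lemma c97 : cert 97 2 16 388 9 9061755 = true := by decide +kernel

lemma c99 : cert 99 4 64 1584 11 246380661616699875185150852874350735 = true := by decide +kernel

lemma c101 : cert 101 2 16 404 9 12135 = true := by decide +kernel

lemma c103 : cert 103 2 16 4 2 15 = true := by decide +kernel

lemma c105 : cert 105 5 128 3360 12 3585259029734724210503145018185057501010483388329401211917 = true := by decide +kernel

lemma c107 : cert 107 3 32 856 10 140518005 = true := by decide +kernel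

lemma c109 : cert 109 3 32 8 3 255 = true := by decide +kernel

lemma c111 : cert 111 2 16 444 9 15931059119885 = true := by decide +kernel

lemma c113 : cert 113 3 32 904 10 196288035 = true := by decide +kernel

lemma c115 : cert 115 7 512 14720 14 966877222222739883 = true := by decide +kernel

lemma c117 : cert 117 3 32 936 10 4867658851671330451309385860564895 = true := by decide +kernel

lemma c119 : cert 119 2 16 476 9 463812218706745815 = true := by decide +kernel

lemma c121 : cert 121 3 32 968 10 133957532535 = true := by decide +kernel

lemma c123 : cert 123 2 16 492 9 37765 = true := by decide +kernel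

lemma c125 : cert 125 2 16 100 7 639041492793 = true := by decide +kernel

lemma c127 : cert 127 2 16 508 9 7635 = true := by decide +kernel

lemma c129 : cert 129 2 16 516 10 81312595 = true := by decide +kernel

lemma c131 : cert 131 2 16 524 10 4138305 = true := by decide +kernel

lemma c133 : cert 133 2 16 532 10 7186488477645 = true := by decide +kernel

lemma c135 : cert 135 2 16 540 10 1739547228424746681581641 = true := by decide +kernel

lemma c137 : cert 137 3 32 1096 11 279735 = true := by decide +kernel

lemma c139 : cert 139 3 32 1112 11 142035 = true := by decide +kernel

lemma c141 : cert 141 2 16 564 10 656080466405 = true := by decide +kernel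

lemma c143 : cert 143 3 32 1144 11 1533233326305 = true := by decide +kernel

lemma c145 : cert 145 2 16 580 10 3139274446671 = true := by decide +kernel

lemma c147 : cert 147 2 16 588 10 77225032828645 = true := by decide +kernel

lemma c149 : cert 149 2 16 596 10 17895 = true := by decide +kernel

lemma c151 : cert 151 4 64 1208 11 616335 = true := by decide +kernel

lemma c153 : cert 153 2 16 612 10 465795234765650558739861609355 = true := by decide +kernel

lemma c155 : cert 155 2 16 620 10 420783 = true := by decide +kernel

lemma c157 : cert 157 2 16 4 2 15 = true := by decide +kernel

lemma c159 : cert 159 2 16 636 10 495467245 = true := by decide +kernel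

lemma c161 : cert 161 2 16 644 10 247524838221435 = true := by decide +kernel

lemma c163 : cert 163 2 16 652 10 9795 = true := by decide +kernel

lemma c165 : cert 165 3 32 1320 11 356334827763946854384060434299 = true := by decide +kernel

lemma c167 : cert 167 3 32 8 3 255 = true := by decide +kernel

lemma c169 : cert 169 3 32 1352 11 37120150335 = true := by decide +kernel

lemma c171 : cert 171 2 16 684 10 128613827615 = true := by decide +kernel

lemma c173 : cert 173 3 32 1384 11 88485 = true := by decide +kernel

lemma c175 : cert 175 3 32 1400 11 129441305966247499514716543227 = true := by decide +kernel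

lemma c177 : cert 177 2 16 708 10 28471089165155 = true := by decide +kernel

lemma c179 : cert 179 2 16 716 10 7716705 = true := by decide +kernel

lemma c181 : cert 181 5 128 1448 11 738735 = true := by decide +kernel

lemma c183 : cert 183 2 16 732 10 122400005 = true := by decide +kernel

lemma c185 : cert 185 2 16 740 10 5488523281131 = true := by decide +kernel

lemma c187 : cert 187 2 16 748 10 4206585 = true := by decide +kernel

lemma c189 : cert 189 2 16 756 10 899008663172706106548134945 = true := by decide +kernel

lemma c191 : cert 191 2 16 764 10 5745 = true := by decide +kernel

lemma c193 : cert 193 2 16 772 10 5336618844135 = true := by decide +kernel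

lemma c195 : cert 195 2 16 780 10 765032176041200287388889228431 = true := by decide +kernel

lemma c197 : cert 197 3 32 1576 11 1205895 = true := by decide +kernel

lemma c199 : cert 199 3 32 1592 11 203235 = true := by decide +kernel

lemma c201 : cert 201 2 16 804 10 633535246435 = true := by decide +kernel

lemma c203 : cert 203 3 32 1624 11 396119805 = true := by decide +kernel

lemma c205 : cert 205 3 32 1640 11 501592513983 = true := by decide +kernel

lemma c207 : cert 207 2 16 828 10 3503138776812517263951451285 = true := by decide +kernel

lemma c209 : cert 209 2 16 836 10 86056627155 = true := by decide +kernel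

lemma c211 : cert 211 3 32 8 3 255 = true := by decide +kernel

lemma c213 : cert 213 2 16 852 10 115444587300852355 = true := by decide +kernel

lemma c215 : cert 215 2 16 860 10 1994989559139486129 = true := by decide +kernel

lemma c217 : cert 217 2 16 868 10 18348725865 = true := by decide +kernel

lemma c219 : cert 219 2 16 876 10 89975661178585 = true := by decide +kernel

lemma c221 : cert 221 2 16 884 10 7219115248245 = true := by decide +kernel

lemma c223 : cert 223 2 16 4 2 15 = true := by decide +kernel

lemma c225 : cert 225 5 128 7200 13 1230999721355768526131096320831985203582503527489218984030522055141544105669276251 = true := by decide +kernel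

lemma c227 : cert 227 3 32 8 3 255 = true := by decide +kernel

lemma c229 : cert 229 3 32 8 3 255 = true := by decide +kernel

lemma c231 : cert 231 2 16 924 10 48010636278520310891665 = true := by decide +kernel

lemma c233 : cert 233 3 32 1864 11 12421856262315 = true := by decide +kernel

lemma c235 : cert 235 2 16 940 10 4788403653 = true := by decide +kernel

lemma c237 : cert 237 2 16 948 10 144235 = true := by decide +kernel

lemma c239 : cert 239 2 16 956 10 78854519985 = true := by decide +kernel

lemma c241 : cert 241 3 32 8 3 255 = true := by decide +kernel

lemma c243 : cert 243 2 16 972 10 2546600284150827141965 = true := by decide +kernel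

lemma c245 : cert 245 3 32 1960 11 1140530753366477745789 = true := by decide +kernel

lemma c247 : cert 247 2 16 988 10 901752553095 = true := by decide +kernel

lemma c249 : cert 249 5 128 7968 13 62886457090199660092360162811015 = true := by decide +kernel

lemma c251 : cert 251 2 16 1004 10 7545 = true := by decide +kernel

lemma c253 : cert 253 2 16 1012 10 28128371371013805 = true := by decide +kernel

lemma c255 : cert 255 6 256 16320 14 71204217612650635929500447737202178596009518294024613090759797 = true := by decide +kernel

lemma c257 : cert 257 7 512 16448 15 1649284153215 = true := by decide +kernel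

lemma c259 : cert 259 7 512 16576 15 3470507927792060739765 = true := by decide +kernel

lemma c261 : cert 261 2 16 1044 11 55725508927750654286224385 = true := by decide +kernel

lemma c263 : cert 263 7 512 4208 13 3860863455 = true := by decide +kernel

lemma c265 : cert 265 3 32 2120 12 35227175345871267 = true := by decide +kernel

lemma c267 : cert 267 2 16 1068 11 795022734301705 = true := by decide +kernel

lemma c269 : cert 269 2 16 1076 11 278027655 = true := by decide +kernel

lemma c271 : cert 271 7 512 4336 13 284225295 = true := by decide +kernel

lemma c273 : cert 273 5 128 8736 14 904969198074093185948388777743232427246584856233134351809085 = true := by decide +kernel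

lemma c275 : cert 275 3 32 2200 12 74710028105179773122983823583 = true := by decide +kernel

lemma c277 : cert 277 2 16 1108 11 16635 = true := by decide +kernel

lemma c279 : cert 279 2 16 1116 11 331152760422884855 = true := by decide +kernel

lemma c281 : cert 281 2 16 1124 11 28484985 = true := by decide +kernel

lemma c283 : cert 283 2 16 4 2 15 = true := by decide +kernel

lemma c285 : cert 285 2 16 1140 11 1537590060807603542382643 = true := by decide +kernel

lemma c287 : cert 287 7 512 18368 15 1217307758995859934606529665 = true := by decide +kernel

lemma c289 : cert 289 3 32 2312 12 608150535 = true := by decide +kernel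

lemma c291 : cert 291 2 16 1164 11 1280084655395 = true := by decide +kernel

lemma c293 : cert 293 3 32 2344 12 1403596245 = true := by decide +kernel

lemma c295 : cert 295 2 16 1180 11 233853238443 = true := by decide +kernel

lemma c297 : cert 297 3 32 2376 12 359908836972518166915802255226555 = true := by decide +kernel

lemma c299 : cert 299 2 16 1196 11 53559252555 = true := by decide +kernel

lemma c301 : cert 301 3 32 2408 12 696368906535 = true := by decide +kernel

lemma c303 : cert 303 2 16 1212 11 271025035645 = true := by decide +kernel

lemma c305 : cert 305 2 16 1220 11 5644268157 = true := by decide +kernel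

lemma c307 : cert 307 2 16 1228 11 135847515 = true := by decide +kernel

lemma c309 : cert 309 2 16 1236 11 861580501145 = true := by decide +kernel

lemma c311 : cert 311 2 16 4 2 15 = true := by decide +kernel

lemma c313 : cert 313 2 16 4 2 15 = true := by decide +kernel

lemma c315 : cert 315 2 16 1260 11 579570297696343357651310343936499920628123 = true := by decide +kernel

lemma c317 : cert 317 3 32 8 3 255 = true := by decide +kernel

end Pool.K4
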