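import Pool.Agent.K4.C

set_option autoImplicit false

namespace Pool.K4

/-- no solution has its odd part between 3 and 317 -/
theorem no_odd_part {m : ℕ} (hm : Odd m) (h3 : 3 ≤ m) (hM : m < 319) (a : ℕ) :
    ¬ (2 ^ a * m) ^ 4 - 1 ∣ 2 ^ (2 ^ a * m) - 1 := by
  obtain ⟨i, rfl⟩ := hm
  have h1 : 1 ≤ i := by omega
  have h2 : i < 159 := by omega
  interval_cases i
  · exact cert_spec (m := 3) (by decide) (by norm_num) c3 a
  · exact cert_spec (m := 5) (by decide) (by norm_num) c5 a
  · exact cert_spec (m := 7) (by decide) (by norm_num) c7 a
  · exact cert_spec (m := 9) (by decide) (by norm_num) c9 a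
  · exact cert_spec (m := 11) (by decide) (by norm_num) c11 a
  · exact cert_spec (m := 13) (by decide) (by norm_num) c13 a
  · exact cert_spec (m := 15) (by decide) (by norm_num) c15 a
  · exact cert_spec (m := 17) (by decide) (by norm_num) c17 a
  · exact cert_spec (m := 19) (by decide) (by norm_num) c19 a
  · exact cert_spec (m := 21) (by decide) (by norm_num) c21 a
  · exact cert_spec (m := 23) (by decide) (by norm_num) c23 a
  · exact cert_spec (m := 25) (by decide) (by norm_num) c25 a
  · exact cert_spec (m := 27) (by decide) (by norm_num) c27 a
  · exact cert_spec (m := 29) (by decide) (by norm_num) c29 a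
  · exact cert_spec (m := 31) (by decide) (by norm_num) c31 a
  · exact cert_spec (m := 33) (by decide) (by norm_num) c33 a
  · exact cert_spec (m := 35) (by decide) (by norm_num) c35 a
  · exact cert_spec (m := 37) (by decide) (by norm_num) c37 a
  · exact cert_spec (m := 39) (by decide) (by norm_num) c39 a
  · exact cert_spec (m := 41) (by decide) (by norm_num) c41 a
  · exact cert_spec (m := 43) (by decide) (by norm_num) c43 a
  · exact cert_spec (m := 45) (by decide) (by norm_num) c45 a
  · exact cert_spec (m := 47) (by decide) (by norm_num) c47 a
  · exact cert_spec (m := 49) (by decide) (by norm_num) c49 a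
  · exact cert_spec (m := 51) (by decide) (by norm_num) c51 a
  · exact cert_spec (m := 53) (by decide) (by norm_num) c53 a
  · exact cert_spec (m := 55) (by decide) (by norm_num) c55 a
  · exact cert_spec (m := 57) (by decide) (by norm_num) c57 a
  · exact cert_spec (m := 59) (by decide) (by norm_num) c59 a
  · exact cert_spec (m := 61) (by decide) (by norm_num) c61 a
  · exact cert_spec (m := 63) (by decide) (by norm_num) c63 a
  · exact cert_spec (m := 65) (by decide) (by norm_num) c65 a
  · exact cert_spec (m := 67) (by decide) (by norm_num) c67 a
  · exact cert_spec (m := 69) (by decide) (by norm_num) c69 a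
  · exact cert_spec (m := 71) (by decide) (by norm_num) c71 a
  · exact cert_spec (m := 73) (by decide) (by norm_num) c73 a
  · exact cert_spec (m := 75) (by decide) (by norm_num) c75 a
  · exact cert_spec (m := 77) (by decide) (by norm_num) c77 a
  · exact cert_spec (m := 79) (by decide) (by norm_num) c79 a
  · exact cert_spec (m := 81) (by decide) (by norm_num) c81 a
  · exact cert_spec (m := 83) (by decide) (by norm_num) c83 a
  · exact cert_spec (m := 85) (by decide) (by norm_num) c85 a
  · exact cert_spec (m := 87) (by decide) (by norm_num) c87 a
  · exact cert_spec (m := 89) (by decide) (by norm_num) c89 a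
  · exact cert_spec (m := 91) (by decide) (by norm_num) c91 a
  · exact cert_spec (m := 93) (by decide) (by norm_num) c93 a
  · exact cert_spec (m := 95) (by decide) (by norm_num) c95 a
  · exact cert_spec (m := 97) (by decide) (by norm_num) c97 a
  · exact cert_spec (m := 99) (by decide) (by norm_num) c99 a
  · exact cert_spec (m := 101) (by decide) (by norm_num) c101 a
  · exact cert_spec (m := 103) (by decide) (by norm_num) c103 a
  · exact cert_spec (m := 105) (by decide) (by norm_num) c105 a
  · exact cert_spec (m := 107) (by decide) (by norm_num) c107 a
  · exact cert_spec (m := 109) (by decide) (by norm_num) c109 a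
  · exact cert_spec (m := 111) (by decide) (by norm_num) c111 a
  · exact cert_spec (m := 113) (by decide) (by norm_num) c113 a
  · exact cert_spec (m := 115) (by decide) (by norm_num) c115 a
  · exact cert_spec (m := 117) (by decide) (by norm_num) c117 a
  · exact cert_spec (m := 119) (by decide) (by norm_num) c119 a
  · exact cert_spec (m := 121) (by decide) (by norm_num) c121 a
  · exact cert_spec (m := 123) (by decide) (by norm_num) c123 a
  · exact cert_spec (m := 125) (by decide) (by norm_num) c125 a
  · exact cert_spec (m := 127) (by decide) (by norm_num) c127 a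
  · exact cert_spec (m := 129) (by decide) (by norm_num) c129 a
  · exact cert_spec (m := 131) (by decide) (by norm_num) c131 a
  · exact cert_spec (m := 133) (by decide) (by norm_num) c133 a
  · exact cert_spec (m := 135) (by decide) (by norm_num) c135 a
  · exact cert_spec (m := 137) (by decide) (by norm_num) c137 a
  · exact cert_spec (m := 139) (by decide) (by norm_num) c139 a
  · exact cert_spec (m := 141) (by decide) (by norm_num) c141 a
  · exact cert_spec (m := 143) (by decide) (by norm_num) c143 a
  · exact cert_spec (m := 145) (by decide) (by norm_num) c145 a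
  · exact cert_spec (m := 147) (by decide) (by norm_num) c147 a
  · exact cert_spec (m := 149) (by decide) (by norm_num) c149 a
  · exact cert_spec (m := 151) (by decide) (by norm_num) c151 a
  · exact cert_spec (m := 153) (by decide) (by norm_num) c153 a
  · exact cert_spec (m := 155) (by decide) (by norm_num) c155 a
  · exact cert_spec (m := 157) (by decide) (by norm_num) c157 a
  · exact cert_spec (m := 159) (by decide) (by norm_num) c159 a
  · exact cert_spec (m := 161) (by decide) (by norm_num) c161 a
  · exact cert_spec (m := 163) (by decide) (by norm_num) c163 a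
  · exact cert_spec (m := 165) (by decide) (by norm_num) c165 a
  · exact cert_spec (m := 167) (by decide) (by norm_num) c167 a
  · exact cert_spec (m := 169) (by decide) (by norm_num) c169 a
  · exact cert_spec (m := 171) (by decide) (by norm_num) c171 a
  · exact cert_spec (m := 173) (by decide) (by norm_num) c173 a
  · exact cert_spec (m := 175) (by decide) (by norm_num) c175 a
  · exact cert_spec (m := 177) (by decide) (by norm_num) c177 a
  · exact cert_spec (m := 179) (by decide) (by norm_num) c179 a
  · exact cert_spec (m := 181) (by decide) (by norm_num) c181 a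
  · exact cert_spec (m := 183) (by decide) (by norm_num) c183 a
  · exact cert_spec (m := 185) (by decide) (by norm_num) c185 a
  · exact cert_spec (m := 187) (by decide) (by norm_num) c187 a
  · exact cert_spec (m := 189) (by decide) (by norm_num) c189 a
  · exact cert_spec (m := 191) (by decide) (by norm_num) c191 a
  · exact cert_spec (m := 193) (by decide) (by norm_num) c193 a
  · exact cert_spec (m := 195) (by decide) (by norm_num) c195 a
  · exact cert_spec (m := 197) (by decide) (by norm_num) c197 a
  · exact cert_spec (m := 199) (by decide) (by norm_num) c199 a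
  · exact cert_spec (m := 201) (by decide) (by norm_num) c201 a
  · exact cert_spec (m := 203) (by decide) (by norm_num) c203 a
  · exact cert_spec (m := 205) (by decide) (by norm_num) c205 a
  · exact cert_spec (m := 207) (by decide) (by norm_num) c207 a
  · exact cert_spec (m := 209) (by decide) (by norm_num) c209 a
  · exact cert_spec (m := 211) (by decide) (by norm_num) c211 a
  · exact cert_spec (m := 213) (by decide) (by norm_num) c213 a
  · exact cert_spec (m := 215) (by decide) (by norm_num) c215 a
  · exact cert_spec (m := 217) (by decide) (by norm_num) c217 a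
  · exact cert_spec (m := 219) (by decide) (by norm_num) c219 a
  · exact cert_spec (m := 221) (by decide) (by norm_num) c221 a
  · exact cert_spec (m := 223) (by decide) (by norm_num) c223 a
  · exact cert_spec (m := 225) (by decide) (by norm_num) c225 a
  · exact cert_spec (m := 227) (by decide) (by norm_num) c227 a
  · exact cert_spec (m := 229) (by decide) (by norm_num) c229 a
  · exact cert_spec (m := 231) (by decide) (by norm_num) c231 a
  · exact cert_spec (m := 233) (by decide) (by norm_num) c233 a
  · exact cert_spec (m := 235) (by decide) (by norm_num) c235 a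
  · exact cert_spec (m := 237) (by decide) (by norm_num) c237 a
  · exact cert_spec (m := 239) (by decide) (by norm_num) c239 a
  · exact cert_spec (m := 241) (by decide) (by norm_num) c241 a
  · exact cert_spec (m := 243) (by decide) (by norm_num) c243 a
  · exact cert_spec (m := 245) (by decide) (by norm_num) c245 a
  · exact cert_spec (m := 247) (by decide) (by norm_num) c247 a
  · exact cert_spec (m := 249) (by decide) (by norm_num) c249 a
  · exact cert_spec (m := 251) (by decide) (by norm_num) c251 a
  · exact cert_spec (m := 253) (by decide) (by norm_num) c253 a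
  · exact cert_spec (m := 255) (by decide) (by norm_num) c255 a
  · exact cert_spec (m := 257) (by decide) (by norm_num) c257 a
  · exact cert_spec (m := 259) (by decide) (by norm_num) c259 a
  · exact cert_spec (m := 261) (by decide) (by norm_num) c261 a
  · exact cert_spec (m := 263) (by decide) (by norm_num) c263 a
  · exact cert_spec (m := 265) (by decide) (by norm_num) c265 a
  · exact cert_spec (m := 267) (by decide) (by norm_num) c267 a
  · exact cert_spec (m := 269) (by decide) (by norm_num) c269 a
  · exact cert_spec (m := 271) (by decide) (by norm_num) c271 a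
  · exact cert_spec (m := 273) (by decide) (by norm_num) c273 a
  · exact cert_spec (m := 275) (by decide) (by norm_num) c275 a
  · exact cert_spec (m := 277) (by decide) (by norm_num) c277 a
  · exact cert_spec (m := 279) (by decide) (by norm_num) c279 a
  · exact cert_spec (m := 281) (by decide) (by norm_num) c281 a
  · exact cert_spec (m := 283) (by decide) (by norm_num) c283 a
  · exact cert_spec (m := 285) (by decide) (by norm_num) c285 a
  · exact cert_spec (m := 287) (by decide) (by norm_num) c287 a
  · exact cert_spec (m := 289) (by decide) (by norm_num) c289 a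
  · exact cert_spec (m := 291) (by decide) (by norm_num) c291 a
  · exact cert_spec (m := 293) (by decide) (by norm_num) c293 a
  · exact cert_spec (m := 295) (by decide) (by norm_num) c295 a
  · exact cert_spec (m := 297) (by decide) (by norm_num) c297 a
  · exact cert_spec (m := 299) (by decide) (by norm_num) c299 a
  · exact cert_spec (m := 301) (by decide) (by norm_num) c301 a
  · exact cert_spec (m := 303) (by decide) (by norm_num) c303 a
  · exact cert_spec (m := 305) (by decide) (by norm_num) c305 a
  · exact cert_spec (m := 307) (by decide) (by norm_num) c307 a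
  · exact cert_spec (m := 309) (by decide) (by norm_num) c309 a
  · exact cert_spec (m := 311) (by decide) (by norm_num) c311 a
  · exact cert_spec (m := 313) (by decide) (by norm_num) c313 a
  · exact cert_spec (m := 315) (by decide) (by norm_num) c315 a
  · exact cert_spec (m := 317) (by decide) (by norm_num) c317 a

/-- the powers of two among the solutions -/
theorem pow_two {a : ℕ} (ha : 1 < 2 ^ a) (h : (2 ^ a) ^ 4 - 1 ∣ 2 ^ (2 ^ a) - 1) :
    ∃ n, 2 ≤ n ∧ 2 ^ a = 2 ^ (2 ^ n) := by
  have ha0 : a ≠ 0 := by rintro rfl; simp at ha
  rw [← pow_mul] at h
  have h1 : 2 ^ (a * 4) - 1 = 2 ^ (Nat.gcd (a * 4) (2 ^ a)) - 1 := by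
    rw [← Nat.pow_sub_one_gcd_pow_sub_one]
    exact (Nat.gcd_eq_left h).symm
  have h2 : a * 4 = Nat.gcd (a * 4) (2 ^ a) := by
    have e1 : 1 ≤ 2 ^ (a * 4) := Nat.one_le_two_pow
    have e2 : 1 ≤ 2 ^ (Nat.gcd (a * 4) (2 ^ a)) := Nat.one_le_two_pow
    have h3 : 2 ^ (a * 4) = 2 ^ (Nat.gcd (a * 4) (2 ^ a)) := by omega
    exact Nat.pow_right_injective le_rfl h3
  have h3 : a * 4 ∣ 2 ^ a := by rw [h2]; exact Nat.gcd_dvd_right _ _
  obtain ⟨n, -, hn⟩ := (Nat.dvd_prime_pow Nat.prime_two).1 ((Dvd.intro _ rfl).trans h3 : a ∣ 2 ^ a)
  refine ⟨n, ?_, by rw [← hn]⟩
  rcases Nat.lt_or_ge n 2 with h4 | h4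
  · exfalso
    interval_cases n
    · rw [hn] at h3; revert h3; decide
    · rw [hn] at h3; revert h3; decide
  · exact h4

end Pool.K4
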