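import Pool.Agent.K4.A

set_option autoImplicit false

namespace Pool.K4

lemma pow_two_mod {P D : ℕ} (h : 2 ^ D ≡ 1 [MOD P]) {a r : ℕ} (har : a ≡ r [MOD D]) :
    2 ^ a ≡ 2 ^ r [MOD P] := by
  have key : ∀ b : ℕ, 2 ^ b ≡ 2 ^ (b % D) [MOD P] := by
    intro b
    have h2 : 2 ^ b = 2 ^ (b % D) * (2 ^ D) ^ (b / D) := by
      rw [← pow_mul, ← pow_add, Nat.mod_add_div]
    conv_lhs => rw [h2]
    have h3 := (h.pow (b / D)).mul_left (2 ^ (b % D))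
    rwa [one_pow, mul_one] at h3
  have h1 : a % D = r % D := har
  have h2 := key a
  rw [h1] at h2
  exact h2.trans (key r).symm

/-- a nonzero number is at least 2 ^ (n + 2) - 1 if a divisor of it is -1 modulo 2 ^ (n + 2) -/
lemma exists_part {a m n : ℕ} (hm : Odd m) (hm1 : m ≠ 1) (hn : 2 ≤ n) (hna : n + 2 ≤ a)
    (h : (2 ^ a * m) ^ 4 - 1 ∣ 2 ^ (2 ^ a * m) - 1) :
    ∃ P : ℕ, 2 ^ (n + 2) ≤ P + 1 ∧ 2 ^ (2 ^ n * m) ≡ 1 [MOD P] ∧ 2 ^ a * m ≡ 1 [MOD P] := by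
  have hm3 : 3 ≤ m := by
    obtain ⟨i, rfl⟩ := hm
    omega
  set k := 2 ^ a * m with hk
  have hk1 : 3 ≤ k := le_trans hm3 (Nat.le_mul_of_pos_left _ (by positivity))
  have hd1 : k - 1 ∣ k ^ 4 - 1 := by
    have := Nat.sub_dvd_pow_sub_pow k 1 4
    simpa using this
  have h1 := part hm hn (by omega : n ≤ a) (hd1.trans h)
  set P := Nat.gcd (k - 1) (2 ^ (2 ^ n * m) - 1) with hP
  refine ⟨P, ?_, ?_, ?_⟩
  · have h2 : P + 1 ≡ 0 [MOD 2 ^ (n + 2)] := by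
      have h3 : (k - 1) + 1 ≡ P + 1 [MOD 2 ^ (n + 2)] := h1.add_right 1
      have e1 : (k - 1) + 1 = k := by omega
      rw [e1] at h3
      refine h3.symm.trans ?_
      rw [Nat.modEq_zero_iff_dvd, hk]
      exact (pow_dvd_pow 2 hna).mul_right _
    exact Nat.le_of_dvd (Nat.succ_pos _) ((Nat.modEq_zero_iff_dvd).1 h2)
  · exact ((Nat.modEq_iff_dvd' Nat.one_le_two_pow).2 (Nat.gcd_dvd_right _ _)).symm
  · exact ((Nat.modEq_iff_dvd' (by omega)).2 (Nat.gcd_dvd_left _ _)).symm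

theorem gap {a m n : ℕ} (hm : Odd m) (hm1 : m ≠ 1) (hn : 2 ≤ n) (hna : n + 2 ≤ a)
    (h : (2 ^ a * m) ^ 4 - 1 ∣ 2 ^ (2 ^ a * m) - 1) (r : ℕ) :
    (a ≡ r [MOD 2 ^ n * m] → 2 ^ (n + 2) ≤ 2 ^ r * m) ∧
      (a + r ≡ 0 [MOD 2 ^ n * m] → 2 ^ (n + 2) ≤ max (2 ^ r) m) := by
  obtain ⟨P, hP, hper, hPk⟩ := exists_part hm hm1 hn hna h
  have hm3 : 3 ≤ m := by
    obtain ⟨i, rfl⟩ := hm
    omega
  constructor
  · intro har
    have h1 : 2 ^ r * m ≡ 1 [MOD P] := ((pow_two_mod hper har).symm.mul_right m).trans hPk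
    have h2 : 3 ≤ 2 ^ r * m := le_trans hm3 (Nat.le_mul_of_pos_left _ (by positivity))
    have h3 : P ∣ 2 ^ r * m - 1 := (Nat.modEq_iff_dvd' (by omega)).1 h1.symm
    have h4 := Nat.le_of_dvd (by omega) h3
    omega
  · intro har
    have h1 : 2 ^ (a + r) ≡ 1 [MOD P] := by simpa using pow_two_mod hper har
    have h2 : m ≡ 2 ^ r [MOD P] := by
      have h3 : 2 ^ (a + r) * m ≡ 2 ^ r [MOD P] := by
        have h4 : 2 ^ (a + r) * m = 2 ^ r * (2 ^ a * m) := by ring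
        rw [h4]
        simpa using hPk.mul_left (2 ^ r)
      have h5 : 2 ^ (a + r) * m ≡ m [MOD P] := by simpa using h1.mul_right m
      exact h5.symm.trans h3
    have hne : m ≠ 2 ^ r := by
      intro h0
      rcases Nat.eq_zero_or_pos r with hr | hr
      · rw [hr, pow_zero] at h0; exact hm1 h0
      · rw [h0] at hm
        exact (Nat.not_odd_iff_even.2 (Nat.even_pow.2 ⟨even_two, hr.ne'⟩)) hm
    rcases lt_or_gt_of_ne hne with h6 | h6
    · have h7 : P ∣ 2 ^ r - m := (Nat.modEq_iff_dvd' h6.le).1 h2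
      have h8 := Nat.le_of_dvd (by omega) h7
      have h9 := le_max_left (2 ^ r) m
      omega
    · have h7 : P ∣ m - 2 ^ r := (Nat.modEq_iff_dvd' h6.le).1 h2.symm
      have h8 := Nat.le_of_dvd (by omega) h7
      have h9 := le_max_right (2 ^ r) m
      have h10 : 1 ≤ 2 ^ r := Nat.one_le_two_pow
      omega

end Pool.K4
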